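import Pool.Agent.Y17.G.Defs
import Pool.Agent.Z179.TREE

/-!
# Project Z17G: the parity of the unweighted sums, norms `3 pr A` (IND3G)
-/

set_option autoImplicit false

namespace Pool.Agent.Y681.N17G

open Finset
open Pool.Agent.Z700 (vec Ln n0 pr Yd lres xres)
open Pool.Agent.Y17.N (Sp g0 t0 SB eQ S_BIL S_T8 S_IND3S bq cq)
open Pool.Agent.Y17.G

/-! ### the class of sets -/

theorem mod8 {A : Finset ℕ} (h : Cl A) {p : ℕ} (hp : p ∈ A) : p % 8 = 1 ∨ p % 8 = 3 ∨ p % 8 = 5 := by
  rcases h.1 p hp with h1 | h1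
  · exact Or.inl h1.2.1
  · exact Or.inr h1.2.1

theorem Cl_sub {A D : Finset ℕ} (h : Cl A) (hD : D ⊆ A) : Cl D :=
  ⟨fun p hp => h.1 p (hD hp), fun h3 => h.2 (hD h3)⟩

theorem prime_of {A : Finset ℕ} (h : Cl A) {p : ℕ} (hp : p ∈ A) : p.Prime := by
  rcases h.1 p hp with h1 | h1
  · exact h1.1
  · exact h1.1

theorem filt_sdiff (q : ℕ → Prop) [DecidablePred q] (A D : Finset ℕ) :
    (A \ D).filter q = A.filter q \ D.filter q := by
  ext p
  simp only [mem_filter, mem_sdiff]
  constructor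
  · rintro ⟨⟨a, b⟩, c⟩
    exact ⟨⟨a, c⟩, fun h => b h.1⟩
  · rintro ⟨⟨a, c⟩, b⟩
    exact ⟨⟨a, fun h => b ⟨h, c⟩⟩, c⟩

theorem sp_sdiff (A D : Finset ℕ) : sp (A \ D) = sp A \ sp D := filt_sdiff _ A D
theorem inn_sdiff (A D : Finset ℕ) : inn (A \ D) = inn A \ inn D := filt_sdiff _ A D
theorem i3_sdiff (A D : Finset ℕ) : i3 (A \ D) = i3 A \ i3 D := filt_sdiff _ A D
theorem i5_sdiff (A D : Finset ℕ) : i5 (A \ D) = i5 A \ i5 D := filt_sdiff _ A D

theorem sp_mono {A D : Finset ℕ} (h : D ⊆ A) : sp D ⊆ sp A := filter_subset_filter _ h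
theorem inn_mono {A D : Finset ℕ} (h : D ⊆ A) : inn D ⊆ inn A := filter_subset_filter _ h
theorem i3_mono {A D : Finset ℕ} (h : D ⊆ A) : i3 D ⊆ i3 A := filter_subset_filter _ h
theorem i5_mono {A D : Finset ℕ} (h : D ⊆ A) : i5 D ⊆ i5 A := filter_subset_filter _ h

theorem card_sub {q : ℕ → Prop} [DecidablePred q] {A D : Finset ℕ} (h : D ⊆ A) :
    ((A \ D).filter q).card + (D.filter q).card = (A.filter q).card := by
  rw [filt_sdiff]
  exact card_sdiff_add_card_eq_card (filter_subset_filter _ h)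

theorem Ty_sdiff {A D : Finset ℕ} (hA : Ty 0 A) (hD : D ⊆ A) (h : Ty 0 D) : Ty 0 (A \ D) := by
  obtain ⟨a1, a2⟩ := hA
  obtain ⟨b1, b2⟩ := h
  have c1 : (i3 (A \ D)).card + (i3 D).card = (i3 A).card := card_sub hD
  have c2 : (i5 (A \ D)).card + (i5 D).card = (i5 A).card := card_sub hD
  constructor
  · omega
  · omega

theorem inn_card {A : Finset ℕ} (h : Cl A) : (inn A).card = (i3 A).card + (i5 A).card := by
  have h1 : inn A = i3 A ∪ i5 A := by
    ext p
    unfold inn i3 i5
    rw [mem_filter, mem_union, mem_filter, mem_filter]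
    constructor
    · rintro ⟨h1, h2⟩
      rcases mod8 h h1 with h3 | h3 | h3
      · exact absurd h3 h2
      · exact Or.inl ⟨h1, h3⟩
      · exact Or.inr ⟨h1, h3⟩
    · rintro (⟨h1, h2⟩ | ⟨h1, h2⟩)
      · exact ⟨h1, by omega⟩
      · exact ⟨h1, by omega⟩
  rw [h1]
  apply card_union_of_disjoint
  rw [disjoint_left]
  intro p hp hp2
  have a1 := (mem_filter.1 hp).2
  have a2 := (mem_filter.1 hp2).2
  omega

theorem inn_even {A : Finset ℕ} (h : Cl A) (hT : Ty 0 A) : (inn A).card % 2 = 0 := by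
  have := inn_card h
  obtain ⟨a1, a2⟩ := hT
  omega

theorem card_split (A : Finset ℕ) : A.card = (sp A).card + (inn A).card := by
  unfold sp inn
  exact (card_filter_add_card_filter_not _).symm

theorem mem_adm {A D : Finset ℕ} {k : ℕ} : D ∈ adm k A ↔ D ⊆ A ∧ Ty k D := by
  unfold adm
  rw [mem_filter, mem_powerset]

/-- the exponent -/
def eE (D : Finset ℕ) : ℕ := (sp D).card + (inn D).card / 2

theorem eE_add {A D : Finset ℕ} (hD : D ⊆ A) (he : (inn D).card % 2 = 0) :
    eE A = eE D + eE (A \ D) := by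
  have c1 : (sp (A \ D)).card + (sp D).card = (sp A).card := card_sub hD
  have c2 : (inn (A \ D)).card + (inn D).card = (inn A).card := card_sub hD
  unfold eE
  omega

/-! ### norms and roots -/

theorem pr_mul {A D : Finset ℕ} (h : D ⊆ A) : pr D * pr (A \ D) = pr A := by
  unfold Pool.Agent.Z700.pr
  rw [mul_comm]
  exact prod_sdiff h

theorem bt_mul {A D : Finset ℕ} (h : D ⊆ A) : bt D * bt (A \ D) = bt A := by
  unfold bt
  rw [mul_comm]
  exact prod_sdiff h

theorem pr_sqf {D : Finset ℕ} (h : Cl D) : Squarefree (pr D) := by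
  unfold Pool.Agent.Z700.pr
  refine Finset.squarefree_prod_of_pairwise_isCoprime ?_ ?_
  · intro p hp r hr hpr
    rw [Function.onFun, ← Nat.coprime_iff_isRelPrime]
    exact (Nat.coprime_primes (prime_of h hp) (prime_of h hr)).2 hpr
  · exact fun p hp => (prime_of h hp).prime.squarefree

theorem cop3 {D : Finset ℕ} (h : Cl D) : Nat.Coprime 3 (pr D) := by
  unfold Pool.Agent.Z700.pr
  refine Nat.Coprime.prod_right fun p hp => ?_
  refine (Nat.coprime_primes Nat.prime_three (prime_of h hp)).2 fun e => ?_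
  exact h.2 (e ▸ hp)

theorem sq3pr {D : Finset ℕ} (h : Cl D) : Squarefree (3 * pr D) := by
  rw [Nat.squarefree_mul (cop3 h)]
  exact ⟨Nat.prime_three.squarefree, pr_sqf h⟩

/-- the product modulo `8` -/
theorem pr_mod8 {D : Finset ℕ} (h : ∀ p ∈ D, p % 8 = 1 ∨ p % 8 = 3 ∨ p % 8 = 5) :
    pr D % 8 = 3 ^ (i3 D).card * 5 ^ (i5 D).card % 8 := by
  induction D using Finset.induction_on with
  | empty => simp [pr, i3, i5]
  | insert p D hp ih =>
    have h1 := ih fun q hq => h q (mem_insert_of_mem hq)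
    have h2 := h p (mem_insert_self p D)
    have e : pr (insert p D) = p * pr D := prod_insert hp
    rw [e, Nat.mul_mod, h1]
    unfold i3 i5
    rw [filter_insert, filter_insert]
    rcases h2 with h3 | h3 | h3
    · rw [if_neg (by omega), if_neg (by omega), h3]
      omega
    · rw [if_pos h3, if_neg (by omega), h3, card_insert_of_notMem (by simp [hp])]
      rw [pow_succ]
      rw [show 3 ^ (D.filter fun p => p % 8 = 3).card * 3 * 5 ^ (D.filter fun p => p % 8 = 5).card =
        3 * (3 ^ (D.filter fun p => p % 8 = 3).card * 5 ^ (D.filter fun p => p % 8 = 5).card) by ring]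
      omega
    · rw [if_neg (by omega), if_pos h3, h3, card_insert_of_notMem (by simp [hp])]
      rw [pow_succ]
      rw [show 3 ^ (D.filter fun p => p % 8 = 3).card * (5 ^ (D.filter fun p => p % 8 = 5).card * 5) =
        5 * (3 ^ (D.filter fun p => p % 8 = 3).card * 5 ^ (D.filter fun p => p % 8 = 5).card) by ring]
      omega

theorem pr_mod8_0 {D : Finset ℕ} (h : Cl D) (hT : Ty 0 D) : pr D % 8 = 1 := by
  rw [pr_mod8 fun p hp => mod8 h hp]
  obtain ⟨a1, a2⟩ := hT
  obtain ⟨a, ha⟩ : ∃ a, (i3 D).card = 2 * a := ⟨(i3 D).card / 2, by omega⟩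
  obtain ⟨b, hb⟩ : ∃ b, (i5 D).card = 2 * b := ⟨(i5 D).card / 2, by omega⟩
  rw [ha, hb, pow_mul, pow_mul, Nat.mul_mod, Nat.pow_mod, Nat.pow_mod (5 ^ 2)]
  norm_num

theorem s7_sp {p : ℕ} (h : Sp p) : s7 p ^ 2 = (p : ZMod 7) := by
  have h7 : ((p % 7 : ℕ) : ZMod 7) = (p : ZMod 7) := by simp
  unfold s7
  rw [← h7]
  rcases h.2.2 with h1 | h1 | h1 <;> rw [h1] <;> decide

theorem s7_in {p : ℕ} (h : In p) : s7 p ^ 2 = -(p : ZMod 7) := by
  have h7 : ((p % 7 : ℕ) : ZMod 7) = (p : ZMod 7) := by simp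
  unfold s7
  rw [← h7]
  rcases h.2.2 with h1 | h1 | h1 <;> rw [h1] <;> decide

theorem s7_ne (p : ℕ) : s7 p ≠ 0 := by
  unfold s7
  split_ifs <;> decide

theorem bt_ne (D : Finset ℕ) : bt D ≠ 0 := by
  have : Fact (Nat.Prime 7) := ⟨by norm_num⟩
  unfold bt
  exact prod_ne_zero_iff.mpr fun p _ => s7_ne p

theorem bt_sq {D : Finset ℕ} (h : ∀ p ∈ D, Sp p ∨ In p) :
    bt D ^ 2 = (-1) ^ (inn D).card * (pr D : ZMod 7) := by
  induction D using Finset.induction_on with
  | empty => simp [bt, inn, pr]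
  | insert p D hp ih =>
    have h1 := ih fun q hq => h q (mem_insert_of_mem hq)
    have h2 := h p (mem_insert_self p D)
    have e : pr (insert p D) = p * pr D := prod_insert hp
    have e2 : bt (insert p D) = s7 p * bt D := prod_insert hp
    rw [e, e2, mul_pow, h1]
    unfold inn
    rw [filter_insert]
    rcases h2 with h3 | h3
    · rw [if_neg (by have := h3.2.1; omega), s7_sp h3]
      push_cast
      ring
    · rw [if_pos (by have := h3.2.1; omega), s7_in h3, card_insert_of_notMem (by simp [hp]), pow_succ]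
      push_cast
      ring

theorem bt_sq0 {D : Finset ℕ} (h : Cl D) (hT : Ty 0 D) : bt D ^ 2 = (pr D : ZMod 7) := by
  rw [bt_sq h.1]
  obtain ⟨a, ha⟩ : ∃ a, (inn D).card = 2 * a := ⟨(inn D).card / 2, by have := inn_even h hT; omega⟩
  rw [ha, pow_mul]
  norm_num

theorem be_sq {D : Finset ℕ} (h : Cl D) (hT : Ty 0 D) :
    (2 * bt D) ^ 2 = -((3 * pr D : ℕ) : ZMod 7) := by
  rw [mul_pow, bt_sq0 h hT]
  push_cast
  have h4 : (2 : ZMod 7) ^ 2 = -3 := by decide
  rw [h4]
  ring

theorem be_ne (D : Finset ℕ) : 2 * bt D ≠ 0 := by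
  have : Fact (Nat.Prime 7) := ⟨by norm_num⟩
  exact mul_ne_zero (by decide) (bt_ne D)

theorem be_mul {A D : Finset ℕ} (h : D ⊆ A) : 2 * bt D * (2 * bt (A \ D)) = 4 * bt A := by
  rw [← bt_mul h]
  ring

theorem not_sq {A : Finset ℕ} (h : Cl A) (hne : A.Nonempty) (b : ℤ) :
    b ^ 2 ≠ 9 * (pr A : ℤ) := by
  intro hb
  have h3 : (3 : ℤ) ∣ b := by
    have : (3 : ℤ) ∣ b ^ 2 := ⟨3 * pr A, by rw [hb]; ring⟩
    exact Int.prime_three.dvd_of_dvd_pow this
  obtain ⟨c, rfl⟩ := h3
  have hc : c ^ 2 = pr A := by linarith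
  have hc2 : c.natAbs * c.natAbs = pr A := by
    have : ((c.natAbs * c.natAbs : ℕ) : ℤ) = pr A := by
      rw [← hc, Int.natCast_mul, Int.natAbs_mul_self' , sq]
    exact_mod_cast this
  have h1 := pr_sqf h c.natAbs ⟨1, by rw [mul_one]; exact hc2.symm⟩
  rw [Nat.isUnit_iff] at h1
  rw [h1] at hc2
  obtain ⟨p, hp⟩ := hne
  have hd : p ∣ pr A := dvd_prod_of_mem _ hp
  rw [← hc2] at hd
  exact (prime_of h hp).one_lt.ne' (Nat.dvd_one.1 hd)

theorem g_empty : g0 ((3 * pr ∅ : ℕ) : ℤ) (2 * bt ∅) = 1 := by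
  have e1 : ((3 * pr ∅ : ℕ) : ℤ) = 3 := rfl
  have e2 : 2 * bt ∅ = 2 := rfl
  rw [e1, e2]
  unfold g0 Pool.Agent.Z700.vec
  decide +kernel

/-- the number of prime factors -/
theorem pf_card {D : Finset ℕ} (h : Cl D) : (3 * pr D).primeFactors.card = D.card + 1 := by
  have h1 : (3 * pr D).primeFactors = insert 3 D := by
    rw [Nat.Coprime.primeFactors_mul (cop3 h), Nat.prime_three.primeFactors]
    have : (pr D).primeFactors = D := by
      unfold Pool.Agent.Z700.pr
      exact Nat.primeFactors_prod fun p hp => prime_of h hp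
    rw [this]
    rfl
  rw [h1, card_insert_of_notMem h.2]

/-- the number of vectors on a line -/
theorem tdiv (h8 : S_T8) (hr : S_RHG) {D : Finset ℕ} (h : Cl D) (hT : Ty 0 D) :
    ∃ k : ℤ, t0 ((3 * pr D : ℕ) : ℤ) (2 * bt D) = 2 ^ D.card * k := by
  have m := pr_mod8_0 h hT
  obtain ⟨k, hk⟩ := hr (3 * pr D) (sq3pr h) (by omega)
  refine ⟨k, ?_⟩
  have h3 := h8 ((3 * pr D : ℕ) : ℤ) (by omega) (2 * bt D) (be_ne D) (by
    rw [be_sq h hT, Int.cast_natCast])
  rw [h3, pf_card h, Nat.add_sub_cancel] at hk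
  have h4 : (8 : ℤ) * t0 ((3 * pr D : ℕ) : ℤ) (2 * bt D) = 8 * (2 ^ D.card * k) := by
    rw [hk]
    ring
  linarith

/-! ### the sum over the subsets -/

theorem half_sum {A : Finset ℕ} (hA : Ty 0 A) {r0 : ℕ} (hr0 : r0 ∈ A) (f : Finset ℕ → ℤ)
    (hf : ∀ D ⊆ A, f (A \ D) = f D) :
    ∑ D ∈ adm 0 A, f D = 2 * ∑ D ∈ (adm 0 A).filter (fun D => r0 ∉ D), f D := by
  classical
  rw [← sum_filter_add_sum_filter_not (adm 0 A) (fun D => r0 ∉ D)]
  have : ∑ D ∈ (adm 0 A).filter (fun D => ¬ r0 ∉ D), f D =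
      ∑ D ∈ (adm 0 A).filter (fun D => r0 ∉ D), f D := by
    refine Finset.sum_bij' (fun D _ => A \ D) (fun D _ => A \ D) ?_ ?_ ?_ ?_ ?_
    · intro D hD
      rw [mem_filter, mem_adm] at hD ⊢
      exact ⟨⟨sdiff_subset, Ty_sdiff hA hD.1.1 hD.1.2⟩, fun h => hD.2 (mem_sdiff.1 h).2⟩
    · intro D hD
      rw [mem_filter, mem_adm] at hD ⊢
      exact ⟨⟨sdiff_subset, Ty_sdiff hA hD.1.1 hD.1.2⟩, fun h => h (mem_sdiff.2 ⟨hr0, hD.2⟩)⟩
    · intro D hD
      rw [mem_filter, mem_adm] at hD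
      exact Finset.sdiff_sdiff_eq_self hD.1.1
    · intro D hD
      rw [mem_filter, mem_adm] at hD
      exact Finset.sdiff_sdiff_eq_self hD.1.1
    · intro D hD
      rw [mem_filter, mem_adm] at hD
      exact (hf D hD.1.1).symm
  rw [this]
  ring

theorem empty_adm (A : Finset ℕ) : ∅ ∈ adm 0 A := by
  rw [mem_adm]
  refine ⟨empty_subset A, ?_, ?_⟩ <;> simp [i3, i5]

/-- the expected parity -/
noncomputable def zz (D : Finset ℕ) : ℤ := Yd lres (fun p => xres p + eQ 3 p + ei D p) (sp D)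

theorem zz_empty : zz ∅ = 1 := by
  unfold zz
  have : sp ∅ = ∅ := by
    unfold sp
    rw [filter_empty]
  rw [this]
  exact Pool.Agent.Z179.yd_empty lres _

theorem ei_un {D S : Finset ℕ} (h : inn D = S) (p : ℕ) : ei D p = ∑ r ∈ S, eQ r p := by
  unfold ei
  rw [h]

theorem inn_un {A S Q : Finset ℕ} (hS : S ⊆ inn A) (hQ : Q ⊆ sp A) : inn (S ∪ Q) = S := by
  ext p
  unfold inn
  rw [mem_filter, mem_union]
  constructor
  · rintro ⟨h1 | h1, h2⟩
    · exact h1
    · exact absurd (mem_filter.1 (hQ h1)).2 h2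
  · intro h
    exact ⟨Or.inl h, (mem_filter.1 (hS h)).2⟩

theorem sp_un {A S Q : Finset ℕ} (hS : S ⊆ inn A) (hQ : Q ⊆ sp A) : sp (S ∪ Q) = Q := by
  ext p
  unfold sp
  rw [mem_filter, mem_union]
  constructor
  · rintro ⟨h1 | h1, h2⟩
    · exact absurd h2 (mem_filter.1 (hS h1)).2
    · exact h1
  · intro h
    exact ⟨Or.inr h, (mem_filter.1 (hQ h)).2⟩

theorem un_eq (D : Finset ℕ) : inn D ∪ sp D = D := by
  unfold inn sp
  rw [union_comm]
  exact filter_union_filter_not_eq _ D

theorem i3_inn (D : Finset ℕ) : i3 (inn D) = i3 D := by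
  ext p
  unfold i3 inn
  simp only [mem_filter]
  constructor
  · rintro ⟨⟨h1, h2⟩, h3⟩
    exact ⟨h1, h3⟩
  · rintro ⟨h1, h3⟩
    exact ⟨⟨h1, by omega⟩, h3⟩

theorem i5_inn (D : Finset ℕ) : i5 (inn D) = i5 D := by
  ext p
  unfold i5 inn
  simp only [mem_filter]
  constructor
  · rintro ⟨⟨h1, h2⟩, h3⟩
    exact ⟨h1, h3⟩
  · rintro ⟨h1, h3⟩
    exact ⟨⟨h1, by omega⟩, h3⟩

theorem Ty_inn {k : ℕ} (D : Finset ℕ) : Ty k (inn D) ↔ Ty k D := by
  unfold Ty
  rw [i3_inn, i5_inn]

/-- the subsets of the set of inert primes -/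
def IS (A : Finset ℕ) (r0 : ℕ) : Finset (Finset ℕ) :=
  (inn A).powerset.filter fun S => r0 ∉ S ∧ Ty 0 S

theorem sum_adm {A : Finset ℕ} {r0 : ℕ} (hr0 : r0 ∈ inn A)
    (f : Finset ℕ → Finset ℕ → ℤ) :
    ∑ D ∈ (adm 0 A).filter (fun D => r0 ∉ D), f (inn D) (sp D) =
      ∑ S ∈ IS A r0, ∑ Q ∈ (sp A).powerset, f S Q := by
  rw [← Finset.sum_product']
  have hq8 : ¬ r0 % 8 = 1 := (mem_filter.1 hr0).2
  refine Finset.sum_bij' (fun D _ => (inn D, sp D)) (fun x _ => x.1 ∪ x.2) ?_ ?_ ?_ ?_ ?_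
  · intro D hD
    rw [mem_filter, mem_adm] at hD
    unfold IS
    rw [mem_product, mem_filter, mem_powerset, mem_powerset]
    exact ⟨⟨inn_mono hD.1.1, fun h => hD.2 (mem_filter.1 h).1, (Ty_inn D).2 hD.1.2⟩,
      sp_mono hD.1.1⟩
  · rintro ⟨S, Q⟩ hx
    unfold IS at hx
    rw [mem_product, mem_filter, mem_powerset, mem_powerset] at hx
    obtain ⟨⟨a1, a2, a3⟩, a4⟩ := hx
    simp only at a1 a2 a3 a4
    rw [mem_filter, mem_adm]
    refine ⟨⟨union_subset (a1.trans (filter_subset _ _)) (a4.trans (filter_subset _ _)), ?_⟩, ?_⟩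
    · show Ty 0 (S ∪ Q)
      rw [← Ty_inn, inn_un a1 a4]
      exact a3
    · intro h
      rcases mem_union.1 h with h | h
      · exact a2 h
      · exact hq8 (mem_filter.1 (a4 h)).2
  · intro D hD
    exact un_eq D
  · rintro ⟨S, Q⟩ hx
    unfold IS at hx
    rw [mem_product, mem_filter, mem_powerset, mem_powerset] at hx
    obtain ⟨⟨a1, a2, a3⟩, a4⟩ := hx
    simp only at a1 a2 a3 a4
    show (inn (S ∪ Q), sp (S ∪ Q)) = (S, Q)
    rw [inn_un a1 a4, sp_un a1 a4]
  · intro D hD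
    rfl

/-- the total sum modulo two -/
theorem tot_par {A : Finset ℕ} {r0 : ℕ} (hr0 : r0 ∈ inn A) :
    (2 : ℤ) ∣ ∑ D ∈ (adm 0 A).filter (fun D => r0 ∉ D), zz D * zz (A \ D) -
      ((IS A r0).card : ℤ) * Yd lres (ei A) (sp A) := by
  have h1 : ∑ D ∈ (adm 0 A).filter (fun D => r0 ∉ D), zz D * zz (A \ D) =
      ∑ D ∈ (adm 0 A).filter (fun D => r0 ∉ D),
        (fun S Q : Finset ℕ => Yd lres (fun p => xres p + eQ 3 p + ∑ r ∈ S, eQ r p) Q *
          Yd lres (fun p => xres p + eQ 3 p + ∑ r ∈ inn A \ S, eQ r p) (sp A \ Q))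
            (inn D) (sp D) := by
    apply sum_congr rfl
    intro D _
    unfold zz ei
    rw [inn_sdiff, sp_sdiff]
  have h2 := sum_adm hr0 (fun S Q : Finset ℕ =>
    Yd lres (fun p => xres p + eQ 3 p + ∑ r ∈ S, eQ r p) Q *
          Yd lres (fun p => xres p + eQ 3 p + ∑ r ∈ inn A \ S, eQ r p) (sp A \ Q))
  rw [h1, h2, ← nsmul_eq_mul, ← sum_const, ← sum_sub_distrib]
  apply dvd_sum
  intro S hS
  unfold IS at hS
  rw [mem_filter, mem_powerset] at hS
  have h3 := Pool.Agent.Z179.yd_add lres (sp A).card (sp A) rfl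
    (fun p => xres p + eQ 3 p + ∑ r ∈ S, eQ r p)
    (fun p => xres p + eQ 3 p + ∑ r ∈ inn A \ S, eQ r p)
  show (2 : ℤ) ∣ ∑ Q ∈ (sp A).powerset,
    Yd lres (fun p => xres p + eQ 3 p + ∑ r ∈ S, eQ r p) Q *
      Yd lres (fun p => xres p + eQ 3 p + ∑ r ∈ inn A \ S, eQ r p) (sp A \ Q) - _
  rw [← h3]
  apply Pool.Agent.Z179.yd_par
  intro k _
  have h4 : ∑ r ∈ inn A \ S, eQ r k + ∑ r ∈ S, eQ r k = ∑ r ∈ inn A, eQ r k := sum_sdiff hS.1
  refine ⟨xres k + eQ 3 k, ?_⟩
  show xres k + eQ 3 k + ∑ r ∈ S, eQ r k + (xres k + eQ 3 k + ∑ r ∈ inn A \ S, eQ r k) -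
    ∑ r ∈ inn A, eQ r k = 2 * (xres k + eQ 3 k)
  linarith

/-- two inert primes -/
theorem card_two {A : Finset ℕ} (hC : Cl A) {r0 : ℕ} (hr0 : r0 ∈ inn A) (h2 : (inn A).card = 2) :
    (IS A r0).card = 1 := by
  rw [card_eq_one]
  refine ⟨∅, ?_⟩
  ext S
  unfold IS
  rw [mem_filter, mem_powerset, mem_singleton]
  constructor
  · rintro ⟨a1, a2, a3⟩
    have hS : Cl S := Cl_sub hC (a1.trans (filter_subset _ _))
    have b1 := inn_even hS a3
    have b2 : inn S = S := by
      ext p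
      unfold inn
      rw [mem_filter]
      exact ⟨fun h => h.1, fun h => ⟨h, (mem_filter.1 (a1 h)).2⟩⟩
    rw [b2] at b1
    have b3 : S ⊂ inn A := by
      refine Finset.ssubset_iff_subset_ne.2 ⟨a1, ?_⟩
      rintro rfl
      exact a2 hr0
    have b4 := card_lt_card b3
    rw [← card_eq_zero]
    omega
  · rintro rfl
    exact ⟨empty_subset _, by simp, by refine ⟨?_, ?_⟩ <;> simp [i3, i5]⟩

theorem card_symm_par (S B : Finset ℕ) :
    ((S \ B) ∪ (B \ S)).card % 2 = (S.card + B.card) % 2 := by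
  rw [card_union_of_disjoint (by
    rw [disjoint_left]
    intro x hx hx2
    exact (mem_sdiff.1 hx2).2 (mem_sdiff.1 hx).1)]
  have e1 := card_sdiff_add_card_inter S B
  have e2 := card_sdiff_add_card_inter B S
  rw [inter_comm B S] at e2
  omega

theorem filt_symm (q : ℕ → Prop) [DecidablePred q] (S B : Finset ℕ) :
    ((S \ B) ∪ (B \ S)).filter q = (S.filter q \ B.filter q) ∪ (B.filter q \ S.filter q) := by
  rw [filter_union, filt_sdiff, filt_sdiff]

/-- more than two inert primes -/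
theorem card_four {A : Finset ℕ} (hC : Cl A) {r0 : ℕ} (h3 : 4 ≤ (inn A).card) :
    Even (IS A r0).card := by
  classical
  obtain ⟨B, hBc, hBR, hBq, hBk⟩ : ∃ B : Finset ℕ, B.card = 2 ∧ B ⊆ inn A ∧ r0 ∉ B ∧
      ((i3 B = B ∧ i5 B = ∅) ∨ (i3 B = ∅ ∧ i5 B = B)) := by
    have h1 := inn_card hC
    have e3 : (i3 A).card ≤ ((i3 A).erase r0).card + 1 := by
      have := pred_card_le_card_erase (s := i3 A) (a := r0)
      omega
    have e5 : (i5 A).card ≤ ((i5 A).erase r0).card + 1 := by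
      have := pred_card_le_card_erase (s := i5 A) (a := r0)
      omega
    have e35 : (i3 A).erase r0 = i3 A ∨ (i5 A).erase r0 = i5 A := by
      by_cases h : r0 ∈ i3 A
      · right
        apply erase_eq_of_notMem
        intro h'
        have a1 := (mem_filter.1 h).2
        have a2 := (mem_filter.1 h').2
        omega
      · left
        exact erase_eq_of_notMem h
    have hcase : 1 < ((i3 A).erase r0).card ∨ 1 < ((i5 A).erase r0).card := by
      rcases e35 with h | h <;> rw [h] <;> omega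
    rcases hcase with h | h
    · obtain ⟨q1, hq1, q2, hq2, h12⟩ := one_lt_card.1 h
      rw [mem_erase] at hq1 hq2
      unfold i3 at hq1 hq2
      rw [mem_filter] at hq1 hq2
      refine ⟨{q1, q2}, card_pair h12, ?_, ?_, Or.inl ⟨?_, ?_⟩⟩
      · intro x hx
        rw [mem_insert, mem_singleton] at hx
        unfold inn
        rw [mem_filter]
        rcases hx with rfl | rfl
        · exact ⟨hq1.2.1, by omega⟩
        · exact ⟨hq2.2.1, by omega⟩
      · rw [mem_insert, mem_singleton]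
        rintro (h | h)
        · exact hq1.1 h.symm
        · exact hq2.1 h.symm
      · unfold i3
        rw [filter_eq_self]
        intro x hx
        rw [mem_insert, mem_singleton] at hx
        rcases hx with rfl | rfl
        · exact hq1.2.2
        · exact hq2.2.2
      · unfold i5
        rw [filter_eq_empty_iff]
        intro x hx
        rw [mem_insert, mem_singleton] at hx
        rcases hx with rfl | rfl <;> omega
    · obtain ⟨q1, hq1, q2, hq2, h12⟩ := one_lt_card.1 h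
      rw [mem_erase] at hq1 hq2
      unfold i5 at hq1 hq2
      rw [mem_filter] at hq1 hq2
      refine ⟨{q1, q2}, card_pair h12, ?_, ?_, Or.inr ⟨?_, ?_⟩⟩
      · intro x hx
        rw [mem_insert, mem_singleton] at hx
        unfold inn
        rw [mem_filter]
        rcases hx with rfl | rfl
        · exact ⟨hq1.2.1, by omega⟩
        · exact ⟨hq2.2.1, by omega⟩
      · rw [mem_insert, mem_singleton]
        rintro (h | h)
        · exact hq1.1 h.symm
        · exact hq2.1 h.symm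
      · unfold i3
        rw [filter_eq_empty_iff]
        intro x hx
        rw [mem_insert, mem_singleton] at hx
        rcases hx with rfl | rfl <;> omega
      · unfold i5
        rw [filter_eq_self]
        intro x hx
        rw [mem_insert, mem_singleton] at hx
        rcases hx with rfl | rfl
        · exact hq1.2.2
        · exact hq2.2.2
  have hBn : B ≠ ∅ := by
    intro h
    rw [h] at hBc
    simp at hBc
  have b3 : (i3 B).card % 2 = 0 := by
    rcases hBk with ⟨h1, h2⟩ | ⟨h1, h2⟩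
    · rw [h1, hBc]
    · rw [h1]
      rfl
  have b5 : (i5 B).card % 2 = 0 := by
    rcases hBk with ⟨h1, h2⟩ | ⟨h1, h2⟩
    · rw [h2]
      rfl
    · rw [h2, hBc]
  have key : ∑ S ∈ IS A r0, (1 : ZMod 2) = 0 := by
    refine Finset.sum_involution (fun S _ => (S \ B) ∪ (B \ S)) ?_ ?_ ?_ ?_
    · intro S _
      decide
    · intro S _ _ h
      apply hBn
      have hk : ∀ x, x ∈ (S \ B) ∪ (B \ S) ↔ x ∈ S := fun x => by rw [h]
      rw [eq_empty_iff_forall_notMem]
      intro x hx
      have hx2 := hk x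
      rw [mem_union, mem_sdiff, mem_sdiff] at hx2
      by_cases hxS : x ∈ S
      · rcases hx2.2 hxS with h5 | h5
        · exact h5.2 hx
        · exact h5.2 hxS
      · exact hxS (hx2.1 (Or.inr ⟨hx, hxS⟩))
    · intro S hS
      unfold IS at hS ⊢
      rw [mem_filter, mem_powerset] at hS ⊢
      obtain ⟨a1, a2, a3, a5⟩ := hS
      refine ⟨union_subset (sdiff_subset.trans a1) (sdiff_subset.trans hBR), ?_, ?_, ?_⟩
      · intro h
        rcases mem_union.1 h with h | h
        · exact a2 (mem_sdiff.1 h).1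
        · exact hBq (mem_sdiff.1 h).1
      · unfold i3 at a3 b3 ⊢
        rw [filt_symm, card_symm_par]
        omega
      · unfold i5 at a5 b5 ⊢
        rw [filt_symm, card_symm_par]
        omega
    · intro S _
      ext x
      simp only [mem_union, mem_sdiff]
      by_cases a : x ∈ S
      · by_cases b : x ∈ B
        · simp [a, b]
        · simp [a, b]
      · by_cases b : x ∈ B
        · simp [a, b]
        · simp [a, b]
  rw [sum_const, nsmul_eq_mul, mul_one] at key
  rwa [ZMod.natCast_eq_zero_iff, ← even_iff_two_dvd] at key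

theorem dvd_of_odd {a b : ℤ} (h : Odd a ↔ Odd b) : (2 : ℤ) ∣ a - b := by
  rw [Int.odd_iff, Int.odd_iff] at h
  omega

theorem mul_par {a b c d : ℤ} (h1 : (2 : ℤ) ∣ a - b) (h2 : (2 : ℤ) ∣ c - d) :
    (2 : ℤ) ∣ a * c - b * d := by
  obtain ⟨k, hk⟩ := h1
  obtain ⟨m, hm⟩ := h2
  exact ⟨k * c + b * m, by linear_combination c * hk + b * hm⟩

/-- **IND3G** -/
theorem t_IND3G (hb : Pool.Agent.Y17.N.S_BIL) (h8 : Pool.Agent.Y17.N.S_T8)
    (h0 : Pool.Agent.Y17.N.S_IND3S) (hr : S_RHG) (hg : S_GEN3G) (h2 : S_F2) (h4 : S_F4) :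
    S_IND3G := by
  classical
  intro A
  induction A using Finset.strongInduction with
  | H A ih =>
    intro hC hT
    by_cases hin : inn A = ∅
    · -- only split primes
      have hSp : ∀ p ∈ A, Sp p := by
        intro p hp
        rcases hC.1 p hp with h | h
        · exact h
        · exfalso
          have : p ∈ inn A := mem_filter.2 ⟨hp, by have := h.2.1; omega⟩
          rw [hin] at this
          simp at this
      have hspA : sp A = A := by
        have h := un_eq A
        rw [hin, empty_union] at h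
        exact h
      obtain ⟨y, hy1, hy2⟩ := h0 A hSp
      refine ⟨y, ?_, ?_⟩
      · rw [hspA, hin]
        have e : bq 3 A = 2 * bt A := by
          unfold bq cq bt
          rw [if_pos rfl]
          congr 1
          refine prod_congr rfl fun p hp => ?_
          unfold Pool.Agent.Z700.sq7 s7
          rcases (hSp p hp).2.2 with h | h | h <;> simp [h]
        rw [← e, hy1]
        simp
      · rw [hy2, hspA]
        have : (fun p => xres p + eQ 3 p) = (fun p => xres p + eQ 3 p + ei A p) := by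
          funext p
          unfold ei
          rw [hin, sum_empty, add_zero]
        rw [← this]
    · obtain ⟨r0, hr0⟩ := nonempty_iff_ne_empty.2 hin
      have hr0A : r0 ∈ A := (mem_filter.1 hr0).1
      have hine := inn_even hC hT
      have hipos : 0 < (inn A).card := card_pos.2 ⟨r0, hr0⟩
      obtain ⟨N, hN1, hN2⟩ := hg A hC hT ⟨r0, hr0A⟩
      -- abbreviations
      obtain ⟨G, hGd⟩ : ∃ G : Finset ℕ → ℤ, G = fun D => g0 ((3 * pr D : ℕ) : ℤ) (2 * bt D) :=
        ⟨_, rfl⟩
      obtain ⟨T, hTd⟩ : ∃ T : Finset ℕ → ℤ, T = fun D => t0 ((3 * pr D : ℕ) : ℤ) (2 * bt D) :=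
        ⟨_, rfl⟩
      obtain ⟨h, hh⟩ : ∃ h : Finset ℕ → ℤ, ∀ D ⊆ A, Ty 0 D → T D = 2 ^ D.card * h D := by
        refine ⟨fun D => T D / 2 ^ D.card, fun D hD hDT => ?_⟩
        obtain ⟨k, hk⟩ := tdiv h8 hr (Cl_sub hC hD) hDT
        have hk' : T D = 2 ^ D.card * k := by rw [hTd]; exact hk
        show T D = 2 ^ D.card * (T D / 2 ^ D.card)
        rw [hk', Int.mul_ediv_cancel_left _ (by positivity)]
      obtain ⟨y, hy⟩ : ∃ y : Finset ℕ → ℤ, ∀ D ⊂ A, Ty 0 D → G D = 2 ^ eE D * y D ∧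
          (Odd (y D) ↔ Odd (zz D)) := by
        refine ⟨fun D => G D / 2 ^ eE D, fun D hD hDT => ?_⟩
        obtain ⟨k, hk1, hk2⟩ := ih D hD (Cl_sub hC hD.1) hDT
        have hk' : G D = 2 ^ eE D * k := by rw [hGd]; exact hk1
        have e : G D / 2 ^ eE D = k := by
          rw [hk', Int.mul_ediv_cancel_left _ (by positivity)]
        show G D = 2 ^ eE D * (G D / 2 ^ eE D) ∧ (Odd (G D / 2 ^ eE D) ↔ Odd (zz D))
        rw [e]
        exact ⟨hk', hk2⟩
      have hG0 : G ∅ = 1 := by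
        rw [hGd]
        exact g_empty
      -- the bilinear identity
      have hbil : ∀ D ∈ adm 0 A, T D * T (A \ D) - G D * G (A \ D) =
          6 * SB (3 * pr D) (3 * pr (A \ D)) (-(4 * bt A)) 1 := by
        intro D hD
        rw [mem_adm] at hD
        have c1 := Cl_sub hC hD.1
        have c2 : Cl (A \ D) := Cl_sub hC sdiff_subset
        have t1 := hD.2
        have t2 := Ty_sdiff hT hD.1 hD.2
        have m1 := pr_mod8_0 c1 t1
        have m2 := pr_mod8_0 c2 t2
        have key := hb (3 * pr D) (3 * pr (A \ D)) (sq3pr c1) (by omega) (by omega) (2 * bt D)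
          (2 * bt (A \ D)) (be_ne D) (be_ne _) (be_sq c1 t1) (be_sq c2 t2) 1 (Or.inl rfl) (by
            intro b _ _ hbb
            refine not_sq hC ⟨r0, hr0A⟩ b ?_
            rw [hbb, ← pr_mul hD.1]
            push_cast
            ring)
        rw [one_mul, be_mul hD.1] at key
        rw [hTd, hGd]
        exact key
      -- summation
      have hs := half_sum hT hr0A (fun D => T D * T (A \ D) - G D * G (A \ D)) (by
        intro D hD
        rw [Finset.sdiff_sdiff_eq_self hD]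
        ring)
      rw [sum_congr rfl hbil, ← mul_sum, hN1, sum_sub_distrib] at hs
      obtain ⟨F, hF⟩ : ∃ F, F = (adm 0 A).filter (fun D => r0 ∉ D) := ⟨_, rfl⟩
      rw [← hF] at hs
      have h0m : ∅ ∈ F := by
        rw [hF, mem_filter]
        exact ⟨empty_adm A, by simp⟩
      have hFm : ∀ D ∈ F.erase ∅, D ⊂ A ∧ A \ D ⊂ A ∧ Ty 0 D ∧ Ty 0 (A \ D) := by
        intro D hD
        rw [mem_erase, hF, mem_filter, mem_adm] at hD
        obtain ⟨a1, ⟨a2, a3⟩, a4⟩ := hD
        refine ⟨Finset.ssubset_iff_subset_ne.2 ⟨a2, ?_⟩,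
          Finset.ssubset_iff_subset_ne.2 ⟨sdiff_subset, ?_⟩, a3, Ty_sdiff hT a2 a3⟩
        · rintro rfl
          exact a4 hr0A
        · intro h
          obtain ⟨x, hx⟩ := nonempty_iff_ne_empty.2 a1
          have : x ∈ A \ D := by
            rw [h]
            exact a2 hx
          exact (mem_sdiff.1 this).2 hx
      have hTT : ∑ D ∈ F, T D * T (A \ D) = 2 ^ A.card * ∑ D ∈ F, h D * h (A \ D) := by
        rw [mul_sum]
        refine sum_congr rfl fun D hD => ?_
        rw [hF, mem_filter, mem_adm] at hD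
        rw [hh D hD.1.1 hD.1.2, hh _ sdiff_subset (Ty_sdiff hT hD.1.1 hD.1.2)]
        have : A.card = D.card + (A \ D).card := by
          rw [card_sdiff_of_subset hD.1.1]
          have := card_le_card hD.1.1
          omega
        rw [this, pow_add]
        ring
      have hGG : ∑ D ∈ F, G D * G (A \ D) = G A + 2 ^ eE A *
          ∑ D ∈ F.erase ∅, y D * y (A \ D) := by
        rw [← add_sum_erase _ _ h0m, mul_sum, hG0, one_mul, sdiff_empty]
        congr 1
        refine sum_congr rfl fun D hD => ?_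
        obtain ⟨a1, a2, a3, a4⟩ := hFm D hD
        rw [(hy D a1 a3).1, (hy _ a2 a4).1, eE_add a1.1 (inn_even (Cl_sub hC a1.1) a3), pow_add]
        ring
      have hZZ : ∑ D ∈ F, zz D * zz (A \ D) = zz A + ∑ D ∈ F.erase ∅, zz D * zz (A \ D) := by
        rw [← add_sum_erase _ _ h0m, zz_empty, one_mul, sdiff_empty]
      have hcong : (2 : ℤ) ∣ ∑ D ∈ F.erase ∅, y D * y (A \ D) -
          ∑ D ∈ F.erase ∅, zz D * zz (A \ D) := by
        rw [← sum_sub_distrib]
        refine dvd_sum fun D hD => ?_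
        obtain ⟨a1, a2, a3, a4⟩ := hFm D hD
        exact mul_par (dvd_of_odd (hy D a1 a3).2) (dvd_of_odd (hy _ a2 a4).2)
      have htot := tot_par hr0
      rw [← hF] at htot
      rw [hTT, hGG] at hs
      rw [hZZ] at htot
      -- the exponents
      have hcs := card_split A
      have hic := inn_card hC
      obtain ⟨t1, t2⟩ := hT
      have hAc : A.card = eE A + ((inn A).card / 2 - 1) + 1 := by
        unfold eE
        omega
      have hex : eE A ≤ ex A := by
        unfold eE ex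
        omega
      obtain ⟨k, hk⟩ : ∃ k, ex A = eE A + k := ⟨ex A - eE A, by omega⟩
      obtain ⟨H, hH⟩ : ∃ H, H = ∑ D ∈ F, h D * h (A \ D) := ⟨_, rfl⟩
      obtain ⟨Y, hY⟩ : ∃ Y, Y = ∑ D ∈ F.erase ∅, y D * y (A \ D) := ⟨_, rfl⟩
      obtain ⟨Z, hZ⟩ : ∃ Z, Z = ∑ D ∈ F.erase ∅, zz D * zz (A \ D) := ⟨_, rfl⟩
      rw [← hH, ← hY, hAc, hk, pow_add, pow_add, pow_add] at hs
      rw [← hY, ← hZ] at hcong
      rw [← hZ] at htot
      have hval : G A = 2 ^ eE A * (2 * (2 ^ ((inn A).card / 2 - 1) * H) - 3 * (2 ^ k * N) - Y) := by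
        linarith
      refine ⟨2 * (2 ^ ((inn A).card / 2 - 1) * H) - 3 * (2 ^ k * N) - Y, ?_, ?_⟩
      · rw [hGd] at hval
        exact hval
      · show Odd (2 * (2 ^ ((inn A).card / 2 - 1) * H) - 3 * (2 ^ k * N) - Y) ↔ Odd (zz A)
        obtain ⟨X, hX⟩ : ∃ X, X = 2 ^ ((inn A).card / 2 - 1) * H := ⟨_, rfl⟩
        rw [← hX]
        by_cases hc2 : (inn A).card = 2
        · -- two inert primes
          have hk0 : k = 0 := by
            unfold ex eE at hk
            omega
          rw [card_two hC hr0 hc2] at htot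
          rw [hk0, pow_zero, one_mul]
          have hρ : (-(4 * bt A)) ^ 2 = 2 * (pr A : ZMod 7) := by
            rw [← bt_sq0 hC ⟨t1, t2⟩]
            have : (4 : ZMod 7) ^ 2 = 2 := by decide
            rw [neg_sq, mul_pow, this]
          rw [h2 A hC ⟨t1, t2⟩ hc2 _ hρ] at hN2
          clear * - hN2 htot hcong
          rw [Int.odd_iff, Int.odd_iff] at hN2 ⊢
          push_cast at htot
          omega
        · -- more inert primes
          obtain ⟨m, hm⟩ := card_four (r0 := r0) hC (by omega : 4 ≤ (inn A).card)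
          rw [hm] at htot
          have hME : (2 : ℤ) ∣ 2 ^ k * N := by
            by_cases hk0 : k = 0
            · have e3 : (i3 A).card = 2 := by
                unfold ex eE at hk
                omega
              have e5 : (i5 A).card = 2 := by
                unfold ex eE at hk
                omega
              have hev := h4 A hC e3 e5 (-(4 * bt A))
              have hNe : ¬ Odd N := by
                rw [hN2, Nat.not_odd_iff_even]
                exact hev
              rw [hk0, pow_zero, one_mul, ← even_iff_two_dvd, ← Int.not_odd_iff_even]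
              exact hNe
            · exact Dvd.dvd.mul_right (dvd_pow_self 2 hk0) N
          obtain ⟨M, hM⟩ := hME
          rw [hM]
          obtain ⟨W, hW⟩ : ∃ W, W = (m : ℤ) * Yd lres (ei A) (sp A) := ⟨_, rfl⟩
          have e : (((m + m : ℕ) : ℤ)) * Yd lres (ei A) (sp A) = 2 * W := by
            rw [hW]
            push_cast
            ring
          rw [e] at htot
          clear * - htot hcong
          rw [Int.odd_iff, Int.odd_iff]
          omega

end Pool.Agent.Y681.N17G
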